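import Pool.Agent.H500.ED.Stm
import Pool.Agent.H967.SV.Fld

/-!
# Part C3 of project ED (helper199 for helper500): topology, inertia and Frobenius elements of the
field of an open subgroup
-/

set_option autoImplicit false
set_option linter.unusedSectionVars false

namespace Pool.Agent.H199.ED.FXC

open NumberField IsDedekindDomain Filter Topology
open Pool.Agent.W401.Cheb (GK IsFrob IsInert)
open Pool.Agent.H500.SV (Above)
open Pool.Agent.H500.ED (FX)
open Pool.Agent.H967.SV.Fld (fix_of_basis frob_pow card_le_of_pow)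

section
variable {K : Type} [Field K] [NumberField K] {H : Subgroup (GK K)}
variable {M : Type} [Field M] [NumberField M] [Algebra K M] {io : GK M →* GK K}
variable {e : AlgebraicClosure M ≃+* AlgebraicClosure K}

theorem io_apply (h : FX H M io e) (σ : GK M) (x : AlgebraicClosure K) :
    io σ x = e (σ (e.symm x)) := by
  rw [← h.act, e.apply_symm_apply]

theorem io_inj (h : FX H M io e) : Function.Injective io := by
  intro σ τ hh
  apply AlgEquiv.ext
  intro x
  have h1 := DFunLike.congr_fun hh (e x)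
  rw [h.act, h.act] at h1
  exact e.injective h1

theorem io_mem (h : FX H M io e) (σ : GK M) : io σ ∈ H := by
  rw [h.mem]
  intro x
  rw [h.act, σ.commutes]

theorem exists_lift (h : FX H M io e) {τ : GK K} (hτ : τ ∈ H) : ∃ σ : GK M, io σ = τ := by
  refine ⟨AlgEquiv.ofRingEquiv (f := (e.trans (τ : AlgebraicClosure K ≃+* AlgebraicClosure K)).trans
    e.symm) ?_, ?_⟩
  · intro x
    show e.symm (τ (e (algebraMap M (AlgebraicClosure M) x))) = _
    rw [(h.mem τ).1 hτ x, e.symm_apply_apply]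
  · apply AlgEquiv.ext
    intro x
    rw [io_apply h]
    show e (e.symm (τ (e (e.symm x)))) = τ x
    rw [e.apply_symm_apply, e.apply_symm_apply]

theorem io_range (h : FX H M io e) : io.range = H := by
  ext τ
  constructor
  · rintro ⟨σ, rfl⟩
    exact io_mem h σ
  · intro hτ
    obtain ⟨σ, hσ⟩ := exists_lift h hτ
    exact ⟨σ, hσ⟩

theorem io_cont (h : FX H M io e) : Continuous io := by
  apply continuous_of_continuousAt_one
  intro A hA
  rw [map_one] at hA
  obtain ⟨E, hE, hEV⟩ := (krullTopology_mem_nhds_one_iff K (AlgebraicClosure K) _).1 hA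
  rw [Filter.mem_map, krullTopology_mem_nhds_one_iff]
  let S : Set (AlgebraicClosure M) :=
    Set.range fun i => e.symm ((Module.finBasis K E i : E) : AlgebraicClosure K)
  have hSf : Finite S := Set.finite_range _
  have hfd : FiniteDimensional M (IntermediateField.adjoin M S) :=
    IntermediateField.finiteDimensional_adjoin fun x _ => Algebra.IsIntegral.isIntegral x
  refine ⟨IntermediateField.adjoin M S, hfd, fun σ hσ => ?_⟩
  apply hEV
  apply fix_of_basis
  intro i
  rw [io_apply h]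
  have h1 : e.symm ((Module.finBasis K E i : E) : AlgebraicClosure K) ∈
      IntermediateField.adjoin M S := IntermediateField.subset_adjoin M S ⟨i, rfl⟩
  rw [(IntermediateField.mem_fixingSubgroup_iff _ σ).1 hσ _ h1, e.apply_symm_apply]

theorem map_open (h : FX H M io e) (hH : IsOpen (H : Set (GK K))) (V : Subgroup (GK M))
    (hV : IsOpen (V : Set (GK M))) : IsOpen ((V.map io : Subgroup (GK K)) : Set (GK K)) := by
  obtain ⟨E, hE, hEV⟩ := (krullTopology_mem_nhds_one_iff M (AlgebraicClosure M) _).1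
    (hV.mem_nhds V.one_mem)
  obtain ⟨F, hF, hFH⟩ := (krullTopology_mem_nhds_one_iff K (AlgebraicClosure K) _).1
    (hH.mem_nhds H.one_mem)
  apply Subgroup.isOpen_of_mem_nhds (g := 1)
  rw [krullTopology_mem_nhds_one_iff]
  let S : Set (AlgebraicClosure K) :=
    Set.range fun i => e ((Module.finBasis M E i : E) : AlgebraicClosure M)
  have hSf : Finite S := Set.finite_range _
  have hfd : FiniteDimensional K (IntermediateField.adjoin K S) :=
    IntermediateField.finiteDimensional_adjoin fun x _ => Algebra.IsIntegral.isIntegral x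
  refine ⟨F ⊔ IntermediateField.adjoin K S, IntermediateField.finiteDimensional_sup _ _,
    fun τ hτ => ?_⟩
  have hτM : τ ∈ H := hFH (IntermediateField.fixingSubgroup_le le_sup_left hτ)
  have hτS : τ ∈ (IntermediateField.adjoin K S).fixingSubgroup :=
    IntermediateField.fixingSubgroup_le le_sup_right hτ
  obtain ⟨σ, rfl⟩ := exists_lift h hτM
  refine ⟨σ, hEV ?_, rfl⟩
  apply fix_of_basis
  intro i
  have h1 : e ((Module.finBasis M E i : E) : AlgebraicClosure M) ∈
      IntermediateField.adjoin K S := IntermediateField.subset_adjoin K S ⟨i, rfl⟩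
  have h2 := (IntermediateField.mem_fixingSubgroup_iff _ _).1 hτS _ h1
  rw [h.act] at h2
  exact e.injective h2

variable (e) in
/-- the isomorphism of the rings of integers -/
noncomputable def up : 𝓞 (AlgebraicClosure M) →+* 𝓞 (AlgebraicClosure K) :=
  RingOfIntegers.mapRingHom (e : AlgebraicClosure M →+* AlgebraicClosure K)

variable (e) in
/-- the inverse isomorphism -/
noncomputable def dn : 𝓞 (AlgebraicClosure K) →+* 𝓞 (AlgebraicClosure M) :=
  RingOfIntegers.mapRingHom (e.symm : AlgebraicClosure K →+* AlgebraicClosure M)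

theorem up_coe (x : 𝓞 (AlgebraicClosure M)) :
    ((up e x : 𝓞 (AlgebraicClosure K)) : AlgebraicClosure K) = e x := rfl

theorem dn_coe (x : 𝓞 (AlgebraicClosure K)) :
    ((dn e x : 𝓞 (AlgebraicClosure M)) : AlgebraicClosure M) = e.symm x := rfl

theorem dn_up (x : 𝓞 (AlgebraicClosure M)) : dn e (up e x) = x := by
  apply RingOfIntegers.ext
  rw [dn_coe, up_coe, e.symm_apply_apply]

theorem up_dn (x : 𝓞 (AlgebraicClosure K)) : up e (dn e x) = x := by
  apply RingOfIntegers.ext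
  rw [up_coe, dn_coe, e.apply_symm_apply]

theorem dn_alg (h : FX H M io e) (a : 𝓞 K) :
    dn e (algebraMap (𝓞 K) (𝓞 (AlgebraicClosure K)) a) =
      algebraMap (𝓞 M) (𝓞 (AlgebraicClosure M)) (algebraMap (𝓞 K) (𝓞 M) a) := by
  apply RingOfIntegers.ext
  rw [dn_coe]
  show e.symm (algebraMap K (AlgebraicClosure K) (a : K)) =
    algebraMap M (AlgebraicClosure M) (algebraMap K M (a : K))
  rw [← h.base, e.symm_apply_apply]

theorem dn_smul (h : FX H M io e) (σ : GK M) (x : 𝓞 (AlgebraicClosure K)) :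
    dn e (io σ • x) = σ • dn e x := by
  apply RingOfIntegers.ext
  rw [dn_coe]
  show e.symm (io σ (x : AlgebraicClosure K)) = σ (e.symm (x : AlgebraicClosure K))
  rw [io_apply h, e.symm_apply_apply]

theorem up_smul (h : FX H M io e) (σ : GK M) (x : 𝓞 (AlgebraicClosure M)) :
    up e (σ • x) = io σ • up e x := by
  apply RingOfIntegers.ext
  rw [up_coe]
  show e (σ (x : AlgebraicClosure M)) = io σ (e (x : AlgebraicClosure M))
  rw [h.act]

variable (e) in
theorem dn_max {Q : Ideal (𝓞 (AlgebraicClosure M))} (hQ : Q.IsMaximal) :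
    (Q.comap (dn e)).IsMaximal :=
  Ideal.comap_isMaximal_of_surjective _ fun x => ⟨up e x, dn_up x⟩

variable (e) in
theorem up_max {Q : Ideal (𝓞 (AlgebraicClosure K))} (hQ : Q.IsMaximal) :
    (Q.comap (up e)).IsMaximal :=
  Ideal.comap_isMaximal_of_surjective _ fun x => ⟨dn e x, up_dn x⟩

theorem dn_above (hfx : FX H M io e) {v : HeightOneSpectrum (𝓞 K)} {w : HeightOneSpectrum (𝓞 M)}
    (h : Above w v) {Q : Ideal (𝓞 (AlgebraicClosure M))}
    (hQ : Q.comap (algebraMap (𝓞 M) (𝓞 (AlgebraicClosure M))) = w.asIdeal) :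
    (Q.comap (dn e)).comap (algebraMap (𝓞 K) (𝓞 (AlgebraicClosure K))) = v.asIdeal := by
  have h' : w.asIdeal.comap (algebraMap (𝓞 K) (𝓞 M)) = v.asIdeal := h
  rw [← h', ← hQ]
  ext a
  rw [Ideal.mem_comap, Ideal.mem_comap, dn_alg hfx]
  rfl

/-- the place of `M` below an ideal above `v` -/
theorem exists_w (hfx : FX H M io e) {v : HeightOneSpectrum (𝓞 K)}
    {Q : Ideal (𝓞 (AlgebraicClosure K))} (hQm : Q.IsMaximal)
    (hQv : Q.comap (algebraMap (𝓞 K) (𝓞 (AlgebraicClosure K))) = v.asIdeal) :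
    ∃ w : HeightOneSpectrum (𝓞 M), Above w v ∧
      (Q.comap (up e)).comap (algebraMap (𝓞 M) (𝓞 (AlgebraicClosure M))) = w.asIdeal := by
  have hup := up_max e hQm
  have hp : ((Q.comap (up e)).comap (algebraMap (𝓞 M) (𝓞 (AlgebraicClosure M)))).IsPrime := by
    have := hup.isPrime
    exact Ideal.comap_isPrime _ _
  have hv : ((Q.comap (up e)).comap (algebraMap (𝓞 M) (𝓞 (AlgebraicClosure M)))).comap
      (algebraMap (𝓞 K) (𝓞 M)) = v.asIdeal := by
    rw [← hQv]
    ext a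
    rw [Ideal.mem_comap, Ideal.mem_comap, Ideal.mem_comap, Ideal.mem_comap, ← dn_alg hfx, up_dn]
  refine ⟨⟨_, hp, fun h0 => v.ne_bot ?_⟩, hv, rfl⟩
  rw [← hv, h0, ← RingHom.ker_eq_comap_bot]
  exact (RingHom.injective_iff_ker_eq_bot _).1 (FaithfulSMul.algebraMap_injective (𝓞 K) (𝓞 M))

theorem inert (hfx : FX H M io e) {v : HeightOneSpectrum (𝓞 K)} {w : HeightOneSpectrum (𝓞 M)}
    (h : Above w v) {s : GK M} (hs : IsInert w s) : IsInert v (io s) := by
  obtain ⟨Q, hQm, hQw, hQ⟩ := hs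
  refine ⟨Q.comap (dn e), dn_max e hQm, dn_above hfx h hQw, fun x => ?_⟩
  rw [Ideal.mem_comap, map_sub, dn_smul hfx]
  exact hQ _

end

/-- two automorphisms with the same action modulo `Q` differ by an inertia element -/
theorem inert_of_same {K : Type} [Field K] [NumberField K] {Q : Ideal (𝓞 (AlgebraicClosure K))}
    (hm : Q.IsMaximal) {s g : GK K} {q : ℕ}
    (hs : ∀ x : 𝓞 (AlgebraicClosure K), s • x - x ^ q ∈ Q)
    (hg : ∀ x : 𝓞 (AlgebraicClosure K), g • x - x ^ q ∈ Q) (x : 𝓞 (AlgebraicClosure K)) :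
    (s⁻¹ * g) • x - x ∈ Q := by
  set y : 𝓞 (AlgebraicClosure K) := (s⁻¹ * g) • x - x with hy
  have h1 : s • y ∈ Q := by
    have h2 : s • y = (g • x - x ^ q) - (s • x - x ^ q) := by
      rw [hy, smul_sub, smul_smul, mul_inv_cancel_left]
      ring
    rw [h2]
    exact Ideal.sub_mem _ (hg x) (hs x)
  have h3 : y ^ q ∈ Q := by
    have h4 := Ideal.sub_mem _ h1 (hs y)
    rwa [sub_sub_cancel] at h4
  exact hm.isPrime.mem_of_pow_mem _ h3

section
variable {K : Type} [Field K] [NumberField K] {H : Subgroup (GK K)}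
variable {M : Type} [Field M] [NumberField M] [Algebra K M] {io : GK M →* GK K}
variable {e : AlgebraicClosure M ≃+* AlgebraicClosure K}

theorem frob (hfx : FX H M io e) {v : HeightOneSpectrum (𝓞 K)} {w : HeightOneSpectrum (𝓞 M)}
    (h : Above w v) : ∃ f : ℕ, 0 < f ∧ Ideal.absNorm w.asIdeal = Ideal.absNorm v.asIdeal ^ f ∧
    ∀ s, IsFrob w s → ∃ σ τ, IsFrob v σ ∧ IsInert v τ ∧ io s = σ ^ f * τ := by
  have hu : w.under (𝓞 K) = v := HeightOneSpectrum.ext h
  refine ⟨Pool.Agent.Q5.BR.rdeg K w, Pool.Agent.Q5.BR.rdeg_pos (K := K) w, ?_, ?_⟩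
  · rw [Pool.Agent.Q5.BR.absNorm_rdeg (K := K) w, hu]
  rintro s ⟨Q, hQm, hQw, hQ⟩
  have hm := dn_max e hQm
  have hv := dn_above hfx h hQw
  obtain ⟨σ, hσ⟩ := Pool.Agent.W352.ChAbs.exists_frob v (Q.comap (dn e)) hv
  have hs : ∀ x : 𝓞 (AlgebraicClosure K),
      io s • x - x ^ Ideal.absNorm w.asIdeal ∈ Q.comap (dn e) := by
    intro x
    rw [Ideal.mem_comap, map_sub, dn_smul hfx, map_pow]
    exact hQ _
  have hf := frob_pow hσ (Pool.Agent.Q5.BR.rdeg K w)
  rw [Pool.Agent.Q5.BR.absNorm_rdeg (K := K) w, hu] at hs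
  generalize Pool.Agent.Q5.BR.rdeg K w = f at hf hs ⊢
  refine ⟨σ, (σ ^ f)⁻¹ * io s, ⟨_, hm, hv, hσ⟩, ⟨_, hm, hv, inert_of_same hm hf hs⟩, by
    rw [mul_inv_cancel_left]⟩

theorem one_lt_absNorm (v : HeightOneSpectrum (𝓞 K)) : 1 < Ideal.absNorm v.asIdeal := by
  have h0 : Ideal.absNorm v.asIdeal ≠ 0 := fun h => v.ne_bot (Ideal.absNorm_eq_zero_iff.1 h)
  have h1 : Ideal.absNorm v.asIdeal ≠ 1 := fun h =>
    v.isPrime.ne_top (Ideal.absNorm_eq_one_iff.1 h)
  omega

/-- the residue degree divides the exponents which act trivially -/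
theorem rdeg_dvd (u : HeightOneSpectrum (𝓞 M)) {q f k : ℕ} (hq : 1 < q) (hf : 0 < f)
    (hu : Ideal.absNorm u.asIdeal = q ^ f) (hx : ∀ x : 𝓞 M, x ^ q ^ k - x ∈ u.asIdeal) : f ∣ k := by
  have hwm : u.asIdeal.IsMaximal := u.isMaximal
  let _ : Field (𝓞 M ⧸ u.asIdeal) := Ideal.Quotient.field u.asIdeal
  have hcard : Nat.card (𝓞 M ⧸ u.asIdeal) = q ^ f := by
    rw [← hu, Ideal.absNorm_apply, Submodule.cardQuot_apply]
  have hfin : Finite (𝓞 M ⧸ u.asIdeal) := by
    apply Nat.finite_of_card_ne_zero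
    rw [hcard]
    exact (pow_pos (by omega) _).ne'
  let _ : Fintype (𝓞 M ⧸ u.asIdeal) := Fintype.ofFinite _
  have hpk : ∀ y : 𝓞 M ⧸ u.asIdeal, y ^ q ^ k = y := by
    intro y
    obtain ⟨x, rfl⟩ := Ideal.Quotient.mk_surjective y
    rw [← map_pow]
    exact Ideal.Quotient.eq.2 (hx x)
  have hpf : ∀ y : 𝓞 M ⧸ u.asIdeal, y ^ q ^ f = y := by
    intro y
    have h1 := FiniteField.pow_card y
    rwa [← Nat.card_eq_fintype_card, hcard] at h1
  have hpa : ∀ (a : ℕ) (y : 𝓞 M ⧸ u.asIdeal), y ^ q ^ (f * a) = y := by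
    intro a
    induction a with
    | zero =>
      intro y
      rw [mul_zero, pow_zero, pow_one]
    | succ a ih =>
      intro y
      rw [Nat.mul_succ, pow_add, pow_mul, ih, hpf]
  rw [Nat.dvd_iff_mod_eq_zero]
  by_contra hr
  have hr0 : 0 < k % f := Nat.pos_of_ne_zero hr
  have hpr : ∀ y : 𝓞 M ⧸ u.asIdeal, y ^ q ^ (k % f) = y := by
    intro y
    have h1 := hpk y
    rw [← Nat.div_add_mod k f, pow_add, pow_mul, hpa] at h1
    exact h1
  have hle := card_le_of_pow (Nat.one_lt_pow hr hq) hpr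
  rw [hcard] at hle
  have hlt : q ^ (k % f) < q ^ f := Nat.pow_lt_pow_right hq (Nat.mod_lt _ hf)
  omega

theorem last (hfx : FX H M io e) (v : HeightOneSpectrum (𝓞 K)) (σ : GK K) (hσ : IsFrob v σ)
    (y : GK K) (k : ℕ) (hk : 0 < k) (hy : y⁻¹ * σ ^ k * y ∈ H) :
    ∃ (u : HeightOneSpectrum (𝓞 M)) (s τ : GK M) (a : ℕ), Above u v ∧
      IsFrob u s ∧ IsInert u τ ∧ 0 < a ∧ y⁻¹ * σ ^ k * y = io (s ^ a * τ) := by
  obtain ⟨Q, hQm, hQv, hQ⟩ := hσ
  -- the conjugate ideal
  let c : 𝓞 (AlgebraicClosure K) →+* 𝓞 (AlgebraicClosure K) :=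
    MulSemiringAction.toRingHom (GK K) (𝓞 (AlgebraicClosure K)) y
  have hc : ∀ x, c x = y • x := fun x => rfl
  have hcs : Function.Surjective c := fun x => ⟨y⁻¹ • x, by rw [hc, smul_inv_smul]⟩
  have hm' : (Q.comap c).IsMaximal := Ideal.comap_isMaximal_of_surjective _ hcs
  have hv' : (Q.comap c).comap (algebraMap (𝓞 K) (𝓞 (AlgebraicClosure K))) = v.asIdeal := by
    rw [← hQv]
    ext a
    rw [Ideal.mem_comap, Ideal.mem_comap, Ideal.mem_comap, hc, Pool.Agent.W401.Frob.smul_alg]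
  have hg : ∀ x : 𝓞 (AlgebraicClosure K),
      (y⁻¹ * σ ^ k * y) • x - x ^ Ideal.absNorm v.asIdeal ^ k ∈ Q.comap c := by
    intro x
    have h1 := frob_pow hQ k (y • x)
    rw [Ideal.mem_comap, hc, smul_sub, smul_smul, smul_pow', mul_assoc, mul_inv_cancel_left,
      ← smul_smul]
    exact h1
  obtain ⟨u, hu, hQu⟩ := exists_w hfx hm' hv'
  obtain ⟨s₀, hs₀⟩ := exists_lift hfx hy
  have hum := up_max e hm'
  have hs : ∀ x : 𝓞 (AlgebraicClosure M),
      s₀ • x - x ^ Ideal.absNorm v.asIdeal ^ k ∈ (Q.comap c).comap (up e) := by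
    intro x
    rw [Ideal.mem_comap, map_sub, up_smul hfx, map_pow, hs₀]
    exact hg _
  have hx : ∀ x : 𝓞 M, x ^ Ideal.absNorm v.asIdeal ^ k - x ∈ u.asIdeal := by
    intro x
    have h1 := hs (algebraMap (𝓞 M) (𝓞 (AlgebraicClosure M)) x)
    rw [Pool.Agent.W401.Frob.smul_alg, ← map_pow, ← map_sub, ← Ideal.mem_comap, hQu] at h1
    have h4 := u.asIdeal.neg_mem h1
    rwa [neg_sub] at h4
  have huv : u.under (𝓞 K) = v := HeightOneSpectrum.ext hu
  have hN : Ideal.absNorm u.asIdeal =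
      Ideal.absNorm v.asIdeal ^ Pool.Agent.Q5.BR.rdeg K u := by
    rw [Pool.Agent.Q5.BR.absNorm_rdeg (K := K) u, huv]
  have hf := Pool.Agent.Q5.BR.rdeg_pos (K := K) u
  obtain ⟨a, ha⟩ := rdeg_dvd u (one_lt_absNorm v) hf hN hx
  obtain ⟨s, hss⟩ := Pool.Agent.W352.ChAbs.exists_frob u ((Q.comap c).comap (up e)) hQu
  have hsa := frob_pow hss a
  have hkk : Ideal.absNorm u.asIdeal ^ a = Ideal.absNorm v.asIdeal ^ k := by
    rw [hN, ← pow_mul, ← ha]
  rw [hkk] at hsa
  refine ⟨u, s, (s ^ a)⁻¹ * s₀, a, hu, ⟨_, hum, hQu, hss⟩,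
    ⟨_, hum, hQu, inert_of_same hum hsa hs⟩, ?_, ?_⟩
  · rcases Nat.eq_zero_or_pos a with h0 | h0
    · rw [h0, mul_zero] at ha
      omega
    · exact h0
  · rw [mul_inv_cancel_left, hs₀]

end

theorem main : Pool.Agent.H500.ED.S_FXC := by
  intro K _ _ H M _ _ _ io e hH hfx
  exact ⟨io_inj hfx, io_range hfx, io_cont hfx, map_open hfx hH, fun v u h s hs => inert hfx h hs,
    fun v u h => frob hfx h, fun v σ hσ y k hk hy => last hfx v σ hσ y k hk hy⟩

end Pool.Agent.H199.ED.FXC
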